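import Pool.Agent.Helper57.EC.Main
import Pool.Agent.Helper23.ECPoly

set_option autoImplicit false

namespace Pool.Agent.Results.MP_2a9600_co.ThreeRoots

open Pool.Agent.Helper57.EC

/-- For every finite connected simple graph with minimum degree two, other than the triangle, the
edge cover polynomial has at least three distinct complex roots. -/
theorem result : ∀ (V : Type*) [Fintype V] [DecidableEq V] (G : SimpleGraph V) [DecidableRel G.Adj],
    G.Connected → G.minDegree = 2 → IsEmpty (G ≃g (⊤ : SimpleGraph (Fin 3))) →
    3 ≤ {z : ℂ | (edgeCoverPoly G).IsRoot z}.ncard := by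
  intro V _ _ G _ hconn hmin hK
  by_contra hcon
  have hd : ∀ v, 2 ≤ G.degree v := fun v => hmin ▸ G.minDegree_le_degree v
  have : Nonempty V := hconn.nonempty
  exact main_aux hconn hd hK (Pool.Agent.Helper23.ECPoly.part1 G hd (by omega))

end Pool.Agent.Results.MP_2a9600_co.ThreeRoots
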